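import Pool.Agent.Helper95.OD.St

set_option autoImplicit false

/-! Module EX of project OD. -/

namespace Pool.Agent.Helper2.OD

open Pool.Agent.Helper95.OD Finset
open scoped Classical

theorem pos_EX (hLL : LLc) (hPM : PMc) {m r s : ℕ} (hHy : Hy m r s) :
    0 < (Av (KB m r s)).card := by
  have hT : Thin (∅ : Finset (Vx m r)) := by
    intro i
    simp
  have hF : Fam m r s ∅ = KB m r s := by simp [Fam]
  obtain ⟨h1, h2⟩ := hPM m r s hHy ∅ hT ∅ (empty_subset _)
  have h3 : ∀ N ∈ Fam m r s ∅, 1 ≤ (2 : ℝ) ^ N.card *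
      ∏ N' ∈ (Fam m r s ∅).filter (fun N' => CC N N'), (1 - wt N') := by
    intro N _
    have h4 := h2 N
    calc (1 : ℝ) = 2 ^ N.card * (1 / 2) ^ N.card := by
          rw [← mul_pow]
          norm_num
      _ ≤ _ := mul_le_mul_of_nonneg_left h4 (by positivity)
  have h5 := (hLL m r (Fam m r s ∅) (by have := hHy.2.2.1; omega) (fun N hN => (h1 N hN).1)
    (fun N hN => (h1 N hN).2.1) h3).2 ∅ (empty_subset _) (Fam m r s ∅) (Subset.refl _)
  have h6 : 0 < ∏ N ∈ Fam m r s ∅, (1 - wt N) := by
    apply prod_pos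
    intro N hN
    have := (h1 N hN).2.2.2
    linarith
  have h7 : 0 < ((Av (∅ : Finset (Finset (Cl m r)))).card : ℝ) := by
    have : (Av (∅ : Finset (Finset (Cl m r)))) = univ := by
      simp [Av]
    rw [this]
    exact_mod_cast card_pos.2 univ_nonempty
  have h8 : 0 < ((Av (∅ ∪ Fam m r s ∅)).card : ℝ) := lt_of_lt_of_le (mul_pos h6 h7) h5
  rw [empty_union, hF] at h8
  exact_mod_cast h8

theorem hEX : EX := by
  intro hME hMI hEC hLL hPM m r s k hHy hk
  have hA0 := pos_EX hLL hPM hHy
  by_contra hcon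
  push Not at hcon
  have hm : 1 ≤ m := hHy.1
  have hr : 16 ≤ r := hHy.2.2.1
  have hrR : (16 : ℝ) ≤ r := by exact_mod_cast hr
  have hmr : 16 ≤ m * r := by nlinarith
  have hmrR : (16 : ℝ) ≤ ((m * r : ℕ) : ℝ) := by exact_mod_cast hmr
  have hlog : 1 ≤ Real.log ((m * r : ℕ) : ℝ) := by
    rw [Real.le_log_iff_exp_le (by linarith)]
    have := Real.exp_one_lt_d9
    linarith
  have hrk : 8 * (r : ℝ) < k := by nlinarith
  have hk0 : (0 : ℝ) < k := by linarith
  -- each thin set
  have hone : ∀ T : Finset (Vx m r), Thin T → T.card = k →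
      ((Av (Fam m r s (cells T))).card : ℝ) ≤
        Real.exp (-((k : ℝ) ^ 2 / (8 * r))) * ((Av (KB m r s)).card : ℝ) := by
    intro T hT hTk
    have h1 := hMI hME m r s hHy T hT (cells T) (Subset.refl _)
    have h2 := hEC m r T hT
    rw [hTk] at h2
    have h2R : 16 * (k : ℝ) ^ 2 ≤ 32 * ((cells T).card : ℝ) + r * k := by exact_mod_cast h2
    have h3 : (k : ℝ) ^ 2 / 4 ≤ ((cells T).card : ℝ) := by nlinarith
    have h4 : (0 : ℝ) ≤ 1 - 1 / (2 * r) := by
      rw [sub_nonneg, div_le_iff₀ (by linarith)]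
      linarith
    have h5 : 1 - 1 / (2 * (r : ℝ)) ≤ Real.exp (-(1 / (2 * r))) := by
      have := Real.add_one_le_exp (-(1 / (2 * (r : ℝ))))
      linarith
    have h6 : (1 - 1 / (2 * (r : ℝ))) ^ (cells T).card ≤ Real.exp (-((k : ℝ) ^ 2 / (8 * r))) := by
      calc (1 - 1 / (2 * (r : ℝ))) ^ (cells T).card
          ≤ (Real.exp (-(1 / (2 * r)))) ^ (cells T).card := pow_le_pow_left₀ h4 h5 _
        _ = Real.exp (((cells T).card : ℝ) * (-(1 / (2 * r)))) := by
            rw [← Real.exp_nat_mul]
        _ ≤ _ := by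
            apply Real.exp_le_exp.2
            have h7 : ((cells T).card : ℝ) * (-(1 / (2 * r))) =
              -(((cells T).card : ℝ) * (1 / (2 * r))) := by ring
            rw [h7]
            apply neg_le_neg
            calc (k : ℝ) ^ 2 / (8 * r) = (k : ℝ) ^ 2 / 4 * (1 / (2 * r)) := by
                  field_simp
                  ring
              _ ≤ _ := mul_le_mul_of_nonneg_right h3 (by positivity)
    exact h1.trans (mul_le_mul_of_nonneg_right h6 (by positivity))
  -- union bound
  have hsub : Av (KB m r s) ⊆ (((univ : Finset (Vx m r)).powersetCard k).filter Thin).biUnion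
      (fun T => Av (Fam m r s (cells T))) := by
    intro σ hσ
    obtain ⟨T, hT, hTk, hTc⟩ := hcon σ hσ
    rw [mem_biUnion]
    refine ⟨T, ?_, ?_⟩
    · rw [mem_filter, mem_powersetCard]
      exact ⟨⟨subset_univ _, hTk⟩, hT⟩
    · simp only [Av, mem_filter, mem_univ, true_and, Fam, mem_union, mem_image] at hσ ⊢
      rintro N (hN | ⟨c, hc, rfl⟩)
      · exact hσ N hN
      · exact ⟨c, mem_singleton_self c, hTc c hc⟩
  have hcard : ((Av (KB m r s)).card : ℝ) ≤
      ((m * r : ℕ) : ℝ) ^ k * (Real.exp (-((k : ℝ) ^ 2 / (8 * r))) * ((Av (KB m r s)).card : ℝ)) := by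
    calc ((Av (KB m r s)).card : ℝ)
        ≤ ∑ T ∈ ((univ : Finset (Vx m r)).powersetCard k).filter Thin,
            ((Av (Fam m r s (cells T))).card : ℝ) := by
          exact_mod_cast (card_le_card hsub).trans card_biUnion_le
      _ ≤ ∑ T ∈ ((univ : Finset (Vx m r)).powersetCard k).filter Thin,
            Real.exp (-((k : ℝ) ^ 2 / (8 * r))) * ((Av (KB m r s)).card : ℝ) := by
          apply sum_le_sum
          intro T hT
          rw [mem_filter, mem_powersetCard] at hT
          exact hone T hT.2 hT.1.2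
      _ = ((((univ : Finset (Vx m r)).powersetCard k).filter Thin).card : ℝ) *
            (Real.exp (-((k : ℝ) ^ 2 / (8 * r))) * ((Av (KB m r s)).card : ℝ)) := by
          rw [sum_const, nsmul_eq_mul]
      _ ≤ _ := by
          apply mul_le_mul_of_nonneg_right _ (by positivity)
          have h1 : (((univ : Finset (Vx m r)).powersetCard k).filter Thin).card ≤
              (m * r) ^ k := by
            refine (card_filter_le _ _).trans ?_
            rw [card_powersetCard]
            refine (Nat.choose_le_pow _ _).trans ?_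
            simp [Vx]
          exact_mod_cast h1
  have hA0R : (0 : ℝ) < ((Av (KB m r s)).card : ℝ) := by exact_mod_cast hA0
  have hlt : ((m * r : ℕ) : ℝ) ^ k * Real.exp (-((k : ℝ) ^ 2 / (8 * r))) < 1 := by
    have h1 : ((m * r : ℕ) : ℝ) ^ k = Real.exp (k * Real.log ((m * r : ℕ) : ℝ)) := by
      rw [Real.exp_nat_mul, Real.exp_log (by linarith)]
    rw [h1, ← Real.exp_add, Real.exp_lt_one_iff]
    have h2 : (k : ℝ) * Real.log ((m * r : ℕ) : ℝ) < (k : ℝ) ^ 2 / (8 * r) := by
      rw [lt_div_iff₀ (by linarith)]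
      nlinarith
    linarith
  nlinarith

end Pool.Agent.Helper2.OD
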