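import Pool.Agent.Helper48.OD.St

/-! Project OD (MP_b3ce06_al), module K2T. -/

set_option autoImplicit false

namespace Pool.Agent.Helper2.OD

open Pool.Agent.Helper43.GD Pool.Agent.Helper48.OD

theorem cb_neg {L A : Type} [CommRing L] [Group A] {Q : Fr L A} (h : CB L A Q) :
    (-1 : Lˣ) ≠ 1 := by
  intro h1
  have h2 : (-1 : L) = 1 := by
    have h3 := congrArg (Units.val) h1
    simpa using h3
  have h4 : (2 : L) = 0 := by linear_combination -h2
  have := h.nt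
  exact not_isUnit_zero (h4 ▸ h.two)

theorem gn_inv {L : Type} [CommRing L] [Finite L] {t : Lˣ} (h : Gn (t : L)) :
    Gn ((t⁻¹ : Lˣ) : L) := by
  rw [gn_iff] at h ⊢
  intro R hR
  refine h R ?_
  have h1 := inv_mem R t⁻¹ hR
  rwa [inv_inv] at h1

theorem not_ev_neg (hDOD : StDOD) {L A : Type} [CommRing L] [Group A] {Q : Fr L A} {v : Lˣ}
    (hD : D2 L A Q v) {z : Lˣ} (hz : z ∈ Q.U) (he : Ev z) : ¬ Ev (-z) := by
  rcases (hDOD L A Q v hD).1 z hz with h1 | h1
  · exact absurd h1 (he.not_od (cb_neg hD.cb))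
  · exact ((hDOD L A Q v hD).2 _ h1).2

theorem hK2T (hDOD : StDOD) (hK2G : StK2G) (h13 : Pool.Agent.Helper48.OD.StL13) (hGP : StGP) : StK2T := by
  constructor
  · intro L A _ _ Q v hD T hT hTo hTn
    have := hD.cb.fin
    refine ⟨hT.1, fun y hy hye hyg => ?_⟩
    have hTy : T * y ∈ Q.U := Q.U.mul_mem hT.1 hy
    have he : Ev (T * y) := by
      rw [mul_comm]
      exact hye.mul_od hTo
    refine ⟨fun _ => ?_, fun h => absurd h (not_ev_neg hDOD hD hTy he)⟩
    refine h13.2 L A Q (T * y) T⁻¹ hD.cb hTy he hT.inv (gn_inv hTn) ?_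
    rw [mul_comm T y, mul_inv_cancel_right]
    exact hyg
  · intro L A _ _ Q v hD T t hT hTo ht hto htn hTt
    have := hD.cb.fin
    obtain ⟨-, -, -, hinv, -, -⟩ := hK2G L A Q v hD
    have hkey : K2 Q T⁻¹ := by
      refine ⟨Q.U.inv_mem hT.1, fun y hy hye hyg => ?_⟩
      have hz : T⁻¹ * y ∈ Q.U := Q.U.mul_mem (Q.U.inv_mem hT.1) hy
      have he : Ev (T⁻¹ * y) := by
        rw [mul_comm]
        exact hye.mul_od hTo.inv
      refine ⟨fun _ => ?_, fun h => absurd h (not_ev_neg hDOD hD hz he)⟩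
      obtain ⟨w, hw⟩ := he.isUnit hD.cb.two
      have hu : ((w⁻¹ : Lˣ) : L) * (1 - ((T⁻¹ * y : Lˣ) : L)) = 1 := by
        rw [← hw, Units.inv_mul]
      have m1 : (T : L) ∈ Mr Q w⁻¹ := by
        refine hGP L A Q (T⁻¹ * y) w⁻¹ T hD.cb.fin hz hu hT ?_
        rw [mul_comm T⁻¹ y, inv_mul_cancel_right]
        exact hyg
      have hty : Gd Q (t⁻¹ * y) := by
        refine ((hinv t ht).2 y hy hye hyg).1 ?_
        rw [mul_comm]
        exact hye.mul_od hto.inv
      have m2 : ((T * t⁻¹ : Lˣ) : L) ∈ Mr Q w⁻¹ := by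
        refine hGP L A Q (T⁻¹ * y) w⁻¹ (T * t⁻¹) hD.cb.fin hz hu hTt ?_
        have h1 : T⁻¹ * y * (T * t⁻¹) = t⁻¹ * y := by
          rw [mul_comm T⁻¹ y, ← mul_assoc, inv_mul_cancel_right, mul_comm]
        rw [h1]
        exact hty
      have m3 : (t : L) ∈ Mr Q w⁻¹ := by
        have h1 : (t : L) = (((T * t⁻¹)⁻¹ : Lˣ) : L) * (T : L) := by
          rw [← Units.val_mul]
          congr 1
          rw [mul_inv, inv_inv, mul_comm T⁻¹ t, inv_mul_cancel_right]
        rw [h1]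
        exact (Mr Q w⁻¹).mul_mem (inv_mem _ _ m2) m1
      exact h13.1 L A Q (T⁻¹ * y) w⁻¹ hD.cb hz he hu ((gn_iff (t : L)).1 htn _ m3)
    have h2 := hinv _ hkey
    rwa [inv_inv] at h2

end Pool.Agent.Helper2.OD
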