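import Pool.Agent.Helper95.OD.St

set_option autoImplicit false

/-! Module MI of project OD. -/

namespace Pool.Agent.Helper2.OD

open Pool.Agent.Helper95.OD Finset
open scoped Classical

theorem Av_insert_MI {m r : ℕ} (B : Finset (Finset (Cl m r))) (N : Finset (Cl m r)) :
    (Av (insert N B)).card + (Av B ∩ Ev N).card = (Av B).card := by
  have h : Av (insert N B) = Av B \ (Av B ∩ Ev N) := by
    ext σ
    simp only [Av, Ev, mem_filter, mem_univ, true_and, mem_sdiff, mem_inter, mem_insert,
      forall_eq_or_imp]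
    constructor
    · rintro ⟨⟨c, hc, h1⟩, h2⟩
      exact ⟨h2, fun h3 => h1 (h3.2 c hc)⟩
    · rintro ⟨h1, h2⟩
      refine ⟨?_, h1⟩
      by_contra h3
      push Not at h3
      exact h2 ⟨h1, h3⟩
  rw [h]
  exact card_sdiff_add_card_eq_card inter_subset_left

theorem hMI : MI := by
  intro hME m r s hHy T hT A
  induction A using Finset.induction_on with
  | empty =>
    intro _
    simp [Fam]
  | insert c A hc ih =>
    intro hA
    have hA1 : A ⊆ cells T := fun x hx => hA (mem_insert_of_mem hx)
    have hcT : c ∈ cells T := hA (mem_insert_self c A)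
    have h1 := ih hA1
    have h2 := hME m r s hHy T hT A hA1 c hcT hc
    have h3 : Fam m r s (insert c A) = insert {c} (Fam m r s A) := by
      simp only [Fam, image_insert]
      ext x
      simp only [mem_union, mem_insert]
      tauto
    have h4 := Av_insert_MI (Fam m r s A) {c}
    rw [← h3] at h4
    have h5 : ((Av (Fam m r s (insert c A))).card : ℝ) +
        ((Av (Fam m r s A) ∩ Ev {c}).card : ℝ) = ((Av (Fam m r s A)).card : ℝ) := by
      exact_mod_cast h4
    have hr : (16 : ℝ) ≤ r := by exact_mod_cast hHy.2.2.1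
    have hr0 : (0 : ℝ) < 2 * r := by linarith
    have h6 : ((Av (Fam m r s A)).card : ℝ) / (2 * r) ≤
        ((Av (Fam m r s A) ∩ Ev {c}).card : ℝ) := by
      rw [div_le_iff₀ hr0]
      linarith
    have h7 : (0 : ℝ) ≤ 1 - 1 / (2 * r) := by
      rw [sub_nonneg, div_le_iff₀ hr0]
      linarith
    calc ((Av (Fam m r s (insert c A))).card : ℝ)
        ≤ (1 - 1 / (2 * r)) * ((Av (Fam m r s A)).card : ℝ) := by
          have : (1 - 1 / (2 * (r : ℝ))) * ((Av (Fam m r s A)).card : ℝ) =
            ((Av (Fam m r s A)).card : ℝ) - ((Av (Fam m r s A)).card : ℝ) / (2 * r) := by ring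
          rw [this]
          linarith
      _ ≤ (1 - 1 / (2 * r)) * ((1 - 1 / (2 * r)) ^ A.card * ((Av (KB m r s)).card : ℝ)) :=
          mul_le_mul_of_nonneg_left h1 h7
      _ = _ := by
          rw [card_insert_of_notMem hc, pow_succ]
          ring

end Pool.Agent.Helper2.OD
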