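import Pool.Agent.Helper48.OD.St

/-! Project OD (MP_b3ce06_al), module OC4. -/

set_option autoImplicit false

namespace Pool.Agent.Helper2.OD

open Pool.Agent.Helper43.GD Pool.Agent.Helper48.OD

theorem hOC4 (hNV : StNV) (hUP : StUP) (h13 : Pool.Agent.Helper48.OD.StL13) : StOC4 := by
  intro L A _ _ Q v hcb hfo hth
  refine { toCB := hcb, th := hth, z2 := ?_, sh := ?_, xi := ?_ }
  · intro ζ hζ ht h1
    exact h13.2 L A Q ζ v hcb hζ (hcb.ui.ev_of_tw hζ ht h1) hfo.gd hfo.gn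
      (hUP.2 L A Q v ζ hfo hζ ht)
  · intro y₁ _ y₂ _ h1 h2
    exact ⟨v, hfo.gd, hfo.gn, h1.mul_od hfo.od, h2.mul_od hfo.od⟩
  · refine ⟨-v, ?_, ⟨neg_mem Q hfo.gd.1, ?_⟩, ?_⟩
    · have h1 := Ev.neg_one.mul_od hfo.od
      rwa [neg_one_mul] at h1
    · rw [Units.val_neg, sub_neg_eq_add]
      exact hNV L A Q v hfo
    · rw [gn_iff]
      intro R hR
      refine (gn_iff (v : L)).1 hfo.gn R ?_
      have h1 := R.neg_mem hR
      rwa [Units.val_neg, neg_neg] at h1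

end Pool.Agent.Helper2.OD
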